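import Mathlib
import Pool.Agent.W962.Index.Model
import Pool.Agent.W962.Index.Main
import Pool.Agent.W962.Index.Cover

/-!
# 3SUM-Indexing for data structures that use the arrays through ring operations
-/

set_option autoImplicit false

namespace Pool.Agent.Results.MP_e016b3_lc.GenericRing

open Pool.Agent.W962.Generic MvPolynomial

/-- `z` is the sum of a number of the first array and a number of the second array. -/
def IsSum {n : ℕ} (x : Fin 2 × Fin n → ℤ) (z : ℤ) : Prop :=
  ∃ i j, x (0, i) + x (1, j) = z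

section

variable {n d S : ℕ}

/-- The stored polynomials. -/
noncomputable def st (D : RingIndex n d S) (q K : ℤ) (P : ℕ) :
    List (MvPolynomial (Fin 2 × Fin n) ℤ) :=
  List.ofFn fun i => D.store (sym D.pre q K P).2 i

/-- The query algorithm. -/
noncomputable def qa (D : RingIndex n d S) (q K : ℤ) (P : ℕ) (z : ℤ) :
    RingAlgorithm (Fin 2 × Fin n) d :=
  D.query (sym D.pre q K P).2 z

/-- The computed polynomials and the stored polynomials. -/
noncomputable def al (D : RingIndex n d S) (q K : ℤ) (P T : ℕ) (z : ℤ) :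
    List (MvPolynomial (Fin 2 × Fin n) ℤ) :=
  (symFrom (qa D q K P z) q K (st D q K P) T).1

/-- The differences which do not depend on the query. -/
noncomputable def PD (D : RingIndex n d S) (q : ℤ) (K P : ℕ) :
    Finset (MvPolynomial (Fin 2 × Fin n) ℤ) :=
  un (diffs K (lf (sym D.pre q K P).1)) (diffs K (lf (st D q K P)))

/-- The other differences. -/
noncomputable def QD (D : RingIndex n d S) (q : ℤ) (K P T : ℕ) (z : ℤ) :
    Finset (MvPolynomial (Fin 2 × Fin n) ℤ) :=
  sd (diffs K (lf (al D q K P T z))) (diffs K (lf (st D q K P)))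

theorem st_degree (D : RingIndex n d S) (q K : ℤ) (P : ℕ) :
    ∀ f ∈ st D q K P, f.totalDegree ≤ d := by
  intro f hf
  obtain ⟨i, rfl⟩ := (List.mem_ofFn' _ _).1 hf
  exact D.store_degree _ i

theorem al_degree (D : RingIndex n d S) (q K : ℤ) (P T : ℕ) (z : ℤ) :
    ∀ f ∈ al D q K P T z, f.totalDegree ≤ d :=
  symFrom_degree _ q K _ (st_degree D q K P) T

theorem reply_eq (D : RingIndex n d S) (q : ℤ) (K P T : ℕ) (z : ℤ) (x : Fin 2 × Fin n → ℤ)
    (hx : ∀ i, q ∣ x i) (h1 : ∀ r ∈ PD D q K P, eval x r ≠ 0)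
    (h2 : ∀ r ∈ QD D q K P T z, eval x r ≠ 0) :
    D.reply q K P T x z =
      (qa D q K P z).output (symFrom (qa D q K P z) q K (st D q K P) T).2 := by
  classical
  have f1 : Faithful q K x (sym D.pre q K P).1 :=
    faithful_of q K x hx _ fun r hr => h1 r ((mem_un _ _ _).2 (Or.inl hr))
  have f2 : Faithful q K x (symFrom (qa D q K P z) q K (st D q K P) T).1 := by
    refine faithful_of q K x hx _ fun r hr => ?_
    by_cases c : r ∈ diffs K (lf (st D q K P))
    · exact h1 r ((mem_un _ _ _).2 (Or.inr c))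
    · exact h2 r ((mem_sd _ _ _).2 ⟨hr, c⟩)
  have e1 : (D.pre.run q K x P).2 = (sym D.pre q K P).2 := by
    rw [run_eq D.pre q K x P f1]
  have e2 : (List.ofFn fun i => eval x (D.store (sym D.pre q K P).2 i)) =
      (st D q K P).map (eval x) := by
    rw [st, List.map_ofFn]
    rfl
  simp only [RingIndex.reply, e1, e2]
  change (qa D q K P z).output ((qa D q K P z).runFrom q K x _ T).2 = _
  rw [runFrom_eq _ q K x _ T f2]

theorem card_PD_QD (D : RingIndex n d S) (q : ℤ) (K P T : ℕ) (z : ℤ) :
    (PD D q K P).card + (QD D q K P T z).card ≤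
      ((P + 1) ^ 2 + (S + 1) ^ 2 + (S + T + 1) ^ 2) * (2 * K + 1) := by
  classical
  have h1 : (lf (sym D.pre q K P).1).card ≤ P := (lf_card _).trans (by rw [sym_length])
  have h2 : (lf (st D q K P)).card ≤ S := (lf_card _).trans (by simp [st])
  have h3 : (lf (al D q K P T z)).card ≤ S + T :=
    (lf_card _).trans (by rw [al, symFrom_length, st, List.length_ofFn, add_comm])
  have a1 := diffs_card K (lf (sym D.pre q K P).1)
  have a2 := diffs_card K (lf (st D q K P))
  have a3 := diffs_card K (lf (al D q K P T z))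
  calc (PD D q K P).card + (QD D q K P T z).card
      ≤ ((diffs K (lf (sym D.pre q K P).1)).card + (diffs K (lf (st D q K P))).card) +
        (diffs K (lf (al D q K P T z))).card :=
        Nat.add_le_add (un_card _ _) (sd_card _ _)
    _ ≤ ((P + 1) * (P + 1) * (2 * K + 1) + (S + 1) * (S + 1) * (2 * K + 1)) +
        (S + T + 1) * (S + T + 1) * (2 * K + 1) := by
        refine Nat.add_le_add (Nat.add_le_add (a1.trans ?_) (a2.trans ?_)) (a3.trans ?_) <;> gcongr
    _ = _ := by ring

end

/-- The bound for data structures with arbitrary parameters. -/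
theorem key (n P S T d q K k : ℕ) (hn : 2 ≤ n) (hq : 0 < q) (hqn : q ≤ n ^ 50)
    (hk : S + T + 1 < 2 ^ (k + 1))
    (hsize : 24 * (((P + 1) ^ 2 + (S + 1) ^ 2 + (S + T + 1) ^ 2) * (2 * K + 1) * d) ≤ n ^ 250)
    (Ω : Type) (p : PMF Ω) (D : Ω → RingIndex n d S)
    (hD : ∀ (x : Fin 2 × Fin n → ℤ) (z : ℤ), (∀ v, |x v| ≤ (n : ℤ) ^ 300) → |z| ≤ (n : ℤ) ^ 300 →
      (2 / 3 : ENNReal) ≤ p.toOuterMeasure
        {ω | (D ω).reply q K P T x z = true ↔ IsSum x z}) :
    n ^ 2 ≤ 6 * (2 * (T * (d * k * n)) + (S + T + 1) * (d * k) ^ 2) ∧ 0 < T := by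
  classical
  set r : ℕ := n ^ 300 / (2 * q) with hr
  have hr1 : 2 * q * r ≤ n ^ 300 := Nat.mul_div_le _ _
  have hr2 : n ^ 250 ≤ 2 * r + 1 := by
    have h1 : n ^ 300 < 2 * q * (r + 1) := by
      have := Nat.lt_mul_div_succ (n ^ 300) (b := 2 * q) (by omega)
      simpa [hr] using this
    have h2 : n ^ 300 = n ^ 50 * n ^ 250 := by rw [← pow_add]
    by_contra hcon
    push Not at hcon
    have h3 : 2 * (r + 1) ≤ n ^ 250 := by omega
    have h4 : 2 * q * (r + 1) ≤ n ^ 50 * n ^ 250 := by
      calc 2 * q * (r + 1) = q * (2 * (r + 1)) := by ring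
        _ ≤ n ^ 50 * n ^ 250 := Nat.mul_le_mul hqn h3
    omega
  set V : Finset ℤ := (Finset.Icc (-(r : ℤ)) r).image (fun t => (q : ℤ) * t) with hV
  have hq0 : (q : ℤ) ≠ 0 := by exact_mod_cast hq.ne'
  have hVcard : V.card = 2 * r + 1 := by
    rw [hV, Finset.card_image_of_injective _ (mul_right_injective₀ hq0), Int.card_Icc]
    omega
  have hVq : ∀ s ∈ V, (q : ℤ) ∣ s := by
    intro s hs
    obtain ⟨t, -, rfl⟩ := Finset.mem_image.1 hs
    exact Dvd.intro _ rfl
  have hVb : ∀ s ∈ V, |s| ≤ (q : ℤ) * r := by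
    intro s hs
    obtain ⟨t, ht, rfl⟩ := Finset.mem_image.1 hs
    rw [abs_mul, abs_of_nonneg (by positivity : (0 : ℤ) ≤ q)]
    exact mul_le_mul_of_nonneg_left (abs_le.2 (Finset.mem_Icc.1 ht)) (by positivity)
  have hqr : 2 * ((q : ℤ) * r) ≤ (n : ℤ) ^ 300 := by
    have : (2 * q * r : ℕ) ≤ n ^ 300 := hr1
    have h' : ((2 * q * r : ℕ) : ℤ) ≤ ((n ^ 300 : ℕ) : ℤ) := by exact_mod_cast this
    push_cast at h'
    linarith
  have hqr0 : 0 ≤ (q : ℤ) * r := by positivity
  have huv : ∀ T : Fin n × Fin n, ((1, T.2) : Fin 2 × Fin n) ≠ (0, T.1) := by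
    intro T h
    simp at h
  have hmain := main2 (d := d) p (fun ω z x => (D ω).reply q K P T x z) q
    (fun ω => PD (D ω) q K P) (fun ω z => QD (D ω) q K P T z)
    (((P + 1) ^ 2 + (S + 1) ^ 2 + (S + T + 1) ^ 2) * (2 * K + 1))
    (fun ω z => card_PD_QD (D ω) q K P T z)
    (fun ω z => (qa (D ω) q K P z).output
      (symFrom (qa (D ω) q K P z) q K (st (D ω) q K P) T).2)
    (fun ω z x hx h1 h2 => reply_eq (D ω) q K P T z x hx h1 h2)
    ?_ ?_ ?_ ?_ V hVq (fun T : Fin n × Fin n => ((0, T.1) : Fin 2 × Fin n))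
    (fun T => (1, T.2)) huv (fun z x => IsSum x z) ?_ (n ^ 2) ?_ ?_ ?_ ?_ ?_ ?_
  · obtain ⟨ω, z, hz, C', hC1, hC2⟩ := hmain
    obtain ⟨new, hnew1, hnew2⟩ := symFrom_split (qa (D ω) q K P z) q K (st (D ω) q K P) T
    have hal : al (D ω) q K P T z = new ++ st (D ω) q K P := hnew2
    set L := al (D ω) q K P T z with hL
    have hW2 : (nf (sd (lf L) (lf (st (D ω) q K P)))).card ≤ T := by
      refine (nf_card _).trans ?_
      calc (sd (lf L) (lf (st (D ω) q K P))).card ≤ (lf new).card := by
            refine Finset.card_le_card fun f hf => ?_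
            obtain ⟨h1, h2⟩ := (mem_sd _ _ _).1 hf
            rw [mem_lf, hal, List.mem_append] at h1
            rw [mem_lf] at h2 ⊢
            tauto
        _ ≤ T := (lf_card _).trans hnew1.le
    have hW1 : (normal (lf L)).card ≤ S + T + 1 := by
      refine (normal_card _).trans (Nat.succ_le_succ ((lf_card _).trans ?_))
      rw [hal, List.length_append, hnew1, st, List.length_ofFn, add_comm]
    have hcov := cover_index d k (normal (lf L)) (nf (sd (lf L) (lf (st (D ω) q K P)))) (by
        intro f hf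
        obtain ⟨h, hh, rfl⟩ := (mem_nf _ _).1 hf
        exact mem_normal _ h ((mem_sd _ _ _).1 hh).1)
      (lt_of_le_of_lt hW1 hk)
      (normal_degree _ fun f hf => al_degree (D ω) q K P T z f ((mem_lf _ _).1 hf))
      (normal_coeff _) C' (by
        intro t ht
        obtain ⟨p', hp', hdvd⟩ := hC2 t ht
        obtain ⟨hp1, hp2⟩ := (mem_sd _ _ _).1 hp'
        obtain ⟨h, hh, hh', g, hg, hne, c, hc⟩ := covered_new K (lf L) (lf (st (D ω) q K P)) _
          (fun v => if v = (0, t.1) then z else 0) (by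
            simp only [map_add, map_sub, eval_X, eval_C, if_true, if_neg (huv t)]
            ring) p' hp1 hp2 hdvd
        refine ⟨_, (mem_nf _ _).2 ⟨h, (mem_sd _ _ _).2 ⟨hh, hh'⟩, rfl⟩, g, hg,
          ⟨hne, X (1, t.2) - C z, ?_, c, hc⟩, ⟨hne, X (0, t.1) - C z, ?_, c, ?_⟩⟩
        · intro s hs
          have := vars_sub_subset _ hs
          rw [vars_X, vars_C, Finset.union_empty, Finset.mem_singleton] at this
          subst this
          simp [ablk]
        · intro s hs
          have := vars_sub_subset _ hs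
          rw [vars_X, vars_C, Finset.union_empty, Finset.mem_singleton] at this
          subst this
          simp [ablk]
        · have e : (X (1, t.2) + (X (0, t.1) - C z) : MvPolynomial (Fin 2 × Fin n) ℤ) =
              X (0, t.1) + (X (1, t.2) - C z) := by ring
          rw [e]
          exact hc)
    have hcard : Fintype.card (Fin n × Fin n) = n ^ 2 := by
      simp only [Fintype.card_prod, Fintype.card_fin]; ring
    rw [hcard] at hC1
    refine ⟨?_, ?_⟩
    · calc n ^ 2 ≤ 6 * C'.card := hC1
        _ ≤ _ := Nat.mul_le_mul_left _ (hcov.trans (by gcongr))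
    · rcases Nat.eq_zero_or_pos T with h0 | h0
      · exfalso
        have hC0 : 0 < C'.card := by
          have : 0 < n ^ 2 := by positivity
          omega
        obtain ⟨t, ht⟩ := Finset.card_pos.1 hC0
        obtain ⟨p', hp', -⟩ := hC2 t ht
        obtain ⟨hp1, hp2⟩ := (mem_sd _ _ _).1 hp'
        have hnil : new = [] := List.length_eq_zero_iff.1 (hnew1.trans h0)
        rw [hnil, List.nil_append] at hal
        rw [← hL, hal] at hp1
        exact hp2 hp1
      · exact h0
  · intro ω f hf
    rcases (mem_un _ _ _).1 hf with hf | hf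
    · exact diffs_degree K _ (fun g hg => sym_degree _ q K P g ((mem_lf _ _).1 hg)) f hf
    · exact diffs_degree K _ (fun g hg => st_degree (D ω) q K P g ((mem_lf _ _).1 hg)) f hf
  · intro ω z f hf
    exact diffs_degree K _ (fun g hg => al_degree (D ω) q K P T z g ((mem_lf _ _).1 hg)) f
      ((mem_sd _ _ _).1 hf).1
  · intro ω f hf
    rcases (mem_un _ _ _).1 hf with hf | hf
    · exact diffs_ne_zero K _ f hf
    · exact diffs_ne_zero K _ f hf
  · intro ω z f hf
    exact diffs_ne_zero K _ f ((mem_sd _ _ _).1 hf).1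
  · intro z _ x _ t
    refine ⟨t.1, t.2, ?_⟩
    rw [plant_eq, Function.update_self, Function.update_of_ne (huv t)]
    ring
  · -- few inputs are such that the reply has to be positive
    intro z _ F hF
    set cube := Fintype.piFinset (fun _ : Fin 2 × Fin n => V) with hcube
    have hsub : F ⊆ (Finset.univ : Finset (Fin n × Fin n)).biUnion fun t =>
          cube.filter fun x => eval x (X (0, t.1) + (X (1, t.2) - C z)) = 0 := by
      intro x hx
      obtain ⟨hx1, i, j, h⟩ := hF x hx
      refine Finset.mem_biUnion.2 ⟨(i, j), Finset.mem_univ _, Finset.mem_filter.2 ⟨hx1, ?_⟩⟩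
      simp only [map_add, map_sub, eval_X, eval_C]
      linarith
    calc V.card * F.card
        ≤ V.card * ∑ t : Fin n × Fin n,
          (cube.filter fun x => eval x (X (0, t.1) + (X (1, t.2) - C z)) = 0).card :=
          Nat.mul_le_mul_left _ ((Finset.card_le_card hsub).trans Finset.card_biUnion_le)
      _ = ∑ t : Fin n × Fin n,
          V.card * (cube.filter fun x => eval x (X (0, t.1) + (X (1, t.2) - C z)) = 0).card := by
          rw [Finset.mul_sum]
      _ ≤ ∑ _t : Fin n × Fin n, 1 * cube.card := by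
          refine Finset.sum_le_sum fun t _ => ?_
          refine schwartz_zippel _ ?_ 1 ?_ V
          · intro h0
            have h1 : eval (fun v => if v = (0, t.1) then (1 : ℤ) + z else 0)
                (X (0, t.1) + (X (1, t.2) - C z) : MvPolynomial (Fin 2 × Fin n) ℤ) = 0 := by
              rw [h0, map_zero]
            simp only [map_add, map_sub, eval_X, eval_C, if_true, if_neg (huv t)] at h1
            omega
          · refine (totalDegree_add _ _).trans (max_le (by simp) ?_)
            refine (totalDegree_sub _ _).trans (max_le (by simp) ?_)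
            rw [totalDegree_C]
            exact Nat.zero_le _
      _ = n ^ 2 * cube.card := by
          rw [Finset.sum_const, Finset.card_univ, smul_eq_mul]
          simp only [Fintype.card_prod, Fintype.card_fin]
          ring
  · rw [hVcard]
    refine le_trans ?_ hr2
    calc 12 * n ^ 2 ≤ 2 ^ 4 * n ^ 2 := by gcongr; norm_num
      _ ≤ n ^ 4 * n ^ 2 := by gcongr
      _ = n ^ 6 := by rw [← pow_add]
      _ ≤ n ^ 250 := Nat.pow_le_pow_right (by omega) (by norm_num)
  · rw [hVcard]
    exact hsize.trans hr2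
  · rw [hVcard]; omega
  · intro z hz x hx
    refine hD x z (fun v => ?_) ?_
    · have := hVb _ (Fintype.mem_piFinset.1 hx v)
      linarith
    · have := hVb _ hz
      linarith
  · intro z hz x hx t
    refine hD _ z (fun v => ?_) ?_
    · rw [plant_eq]
      by_cases hv : v = (0, t.1)
      · rw [hv, Function.update_self]
        have h1 := hVb _ hz
        have h2 := hVb _ (Fintype.mem_piFinset.1 hx (1, t.2))
        have := abs_sub z (x (1, t.2))
        linarith
      · rw [Function.update_of_ne hv]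
        have := hVb _ (Fintype.mem_piFinset.1 hx v)
        linarith
    · have := hVb _ hz
      linarith

/-! ### The trivial data structures -/

theorem answer_zero (q K : ℕ) (l : List ℤ) (v : ℤ) :
    ((l.map fun u => if |u - v| ≤ (K : ℤ) then some (u - v) else none).any
      fun a => decide (a = some 0)) = true ↔ v ∈ l := by
  rw [List.any_eq_true]
  constructor
  · rintro ⟨a, ha, h⟩
    obtain ⟨u, hu, rfl⟩ := List.mem_map.1 ha
    have h := of_decide_eq_true h
    split_ifs at h
    have h := Option.some.inj h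
    have : u = v := by omega
    exact this ▸ hu
  · intro hv
    refine ⟨_, List.mem_map.2 ⟨v, hv, rfl⟩, ?_⟩
    simp

/-- An enumeration of the pairs of indices. -/
noncomputable def en (n : ℕ) : Fin (n ^ 2) ≃ Fin n × Fin n :=
  (Fintype.equivFinOfCardEq (by simp only [Fintype.card_prod, Fintype.card_fin]; ring)).symm

/-- Store all the sums. -/
noncomputable def sumsIndex (n : ℕ) : RingIndex n 1 (n ^ 2) where
  pre := ⟨fun _ => 0, fun _ => by simp, fun _ => true⟩
  store _ i := X (0, (en n i).1) + X (1, (en n i).2)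
  store_degree _ i := (totalDegree_add _ _).trans (max_le (by simp) (by simp))
  query _ z := ⟨fun _ => C z, fun _ => by rw [totalDegree_C]; exact Nat.zero_le _,
    fun h => h.any fun a => a.1.any fun b => decide (b = some 0)⟩

theorem sumsIndex_reply (n q K : ℕ) (x : Fin 2 × Fin n → ℤ) (z : ℤ) :
    (sumsIndex n).reply q K 0 1 x z = true ↔ IsSum x z := by
  have h1 : (sumsIndex n).reply q K 0 1 x z = true ↔
      z ∈ List.ofFn fun i => eval x ((sumsIndex n).store [] i) := by
    simp only [RingIndex.reply, RingAlgorithm.run, RingAlgorithm.runFrom]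
    rw [← answer_zero q K _ z]
    simp [sumsIndex, answer]
  rw [h1, List.mem_ofFn']
  constructor
  · rintro ⟨i, hi⟩
    refine ⟨(en n i).1, (en n i).2, ?_⟩
    simpa [sumsIndex] using hi
  · rintro ⟨i, j, h⟩
    refine ⟨(en n).symm (i, j), ?_⟩
    simpa [sumsIndex] using h

/-- Store the second array. -/
noncomputable def scanIndex (n : ℕ) : RingIndex n 1 n where
  pre := ⟨fun _ => 0, fun _ => by simp, fun _ => true⟩
  store _ i := X (1, i)
  store_degree _ i := by simp
  query _ z := ⟨fun h => if ht : h.length < n then C z - X (0, ⟨h.length, ht⟩) else 0, fun h => by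
      split_ifs
      · refine (totalDegree_sub _ _).trans (max_le ?_ (by simp))
        rw [totalDegree_C]
        exact Nat.zero_le _
      · simp,
    fun h => h.any fun a => (a.1.drop (a.1.length - n)).any fun b => decide (b = some 0)⟩

theorem scanIndex_run (n : ℕ) (q K : ℕ) (x : Fin 2 × Fin n → ℤ) (z : ℤ) (t : ℕ) (ht : t ≤ n)
    (init : List ℤ) (hi : init.length = n) :
    (((scanIndex n).query [] z).runFrom q K x init t).2.length = t ∧
    (∃ new : List ℤ, (((scanIndex n).query [] z).runFrom q K x init t).1 = new ++ init) ∧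
    ((((scanIndex n).query [] z).runFrom q K x init t).2.any
      (fun a => (a.1.drop (a.1.length - n)).any fun b => decide (b = some 0)) = true ↔
      ∃ s : Fin n, s.1 < t ∧ z - x (0, s) ∈ init) := by
  induction t with
  | zero => simp [RingAlgorithm.runFrom]
  | succ t ih =>
    obtain ⟨ih1, ⟨new, ih2⟩, ih3⟩ := ih (by omega)
    have htn : t < n := by omega
    set s := ((scanIndex n).query [] z).runFrom q K x init t with hs
    have hnext : ((scanIndex n).query [] z).next s.2 = C z - X (0, ⟨t, htn⟩) := by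
      have h1 : s.2.length < n := by rw [ih1]; exact htn
      simp only [scanIndex]
      rw [dif_pos h1]
      congr 3
      exact Fin.ext ih1
    have hv : eval x (((scanIndex n).query [] z).next s.2) = z - x (0, ⟨t, htn⟩) := by
      rw [hnext]; simp
    have hrun : ((scanIndex n).query [] z).runFrom q K x init (t + 1) =
        ((z - x (0, ⟨t, htn⟩)) :: s.1, answer q K s.1 (z - x (0, ⟨t, htn⟩)) :: s.2) := by
      rw [← hv]
      rfl
    rw [hrun]
    refine ⟨by simp [ih1], ⟨(z - x (0, ⟨t, htn⟩)) :: new, by simp [ih2]⟩, ?_⟩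
    have hans : (((answer q K s.1 (z - x (0, ⟨t, htn⟩))).1.drop
        ((answer q K s.1 (z - x (0, ⟨t, htn⟩))).1.length - n)).any fun b =>
          decide (b = some 0)) = true ↔ z - x (0, ⟨t, htn⟩) ∈ init := by
      rw [← answer_zero q K init (z - x (0, ⟨t, htn⟩))]
      have e1 : ((answer q K s.1 (z - x (0, ⟨t, htn⟩))).1.drop
        ((answer q K s.1 (z - x (0, ⟨t, htn⟩))).1.length - n)) =
          init.map fun u => if |u - (z - x (0, ⟨t, htn⟩))| ≤ (K : ℤ) then
            some (u - (z - x (0, ⟨t, htn⟩))) else none := by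
        simp only [answer, ih2, List.map_append, List.length_append, List.length_map]
        rw [List.drop_append_of_le_length (by simp [hi]), hi]
        simp
      rw [e1]
    rw [List.any_cons, Bool.or_eq_true, ih3, hans]
    constructor
    · rintro (h | ⟨s, hs, h⟩)
      · exact ⟨⟨t, htn⟩, Nat.lt_succ_self t, h⟩
      · exact ⟨s, by omega, h⟩
    · rintro ⟨s, hs, h⟩
      rcases Nat.lt_succ_iff_lt_or_eq.1 hs with h' | h'
      · exact Or.inr ⟨s, h', h⟩
      · left
        have : s = ⟨t, htn⟩ := Fin.ext h'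
        rw [← this]
        exact h

theorem scanIndex_reply (n q K : ℕ) (x : Fin 2 × Fin n → ℤ) (z : ℤ) :
    (scanIndex n).reply q K 0 n x z = true ↔ IsSum x z := by
  have h1 := (scanIndex_run n q K x z n le_rfl
    (List.ofFn fun i => eval x ((scanIndex n).store [] i)) (by simp)).2.2
  have h2 : (scanIndex n).reply q K 0 n x z =
      (((scanIndex n).query [] z).runFrom q K x
        (List.ofFn fun i => eval x ((scanIndex n).store [] i)) n).2.any
      (fun a => (a.1.drop (a.1.length - n)).any fun b => decide (b = some 0)) := rfl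
  rw [h2, h1]
  constructor
  · rintro ⟨s, -, h⟩
    obtain ⟨j, hj⟩ := (List.mem_ofFn' _ _).1 h
    refine ⟨s, j, ?_⟩
    simp only [scanIndex, eval_X] at hj
    omega
  · rintro ⟨i, j, h⟩
    refine ⟨i, i.2, (List.mem_ofFn' _ _).2 ⟨j, ?_⟩⟩
    simp only [scanIndex, eval_X]
    omega

/-- **3SUM-Indexing in the generic ring model.**

1. Let a randomised data structure for two arrays of `n ≥ 2` integers of absolute value at most
`n ^ 300` use the arrays only through ring operations: the preprocessing computes the values of `P`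
integer polynomials of degree at most `d` in the numbers of the arrays, the values of `S`
polynomials are stored, and the query algorithm, which knows the query `z` and everything the
preprocessing has learnt, computes the values of `T` further polynomials, whose coefficients may
depend on `z` in an arbitrary way; all this is adaptive.  Whenever a value is computed, its
differences with the previous values (for queries: with the stored values and the values computed
before for the same query) are learnt if their absolute value is at most `K`, the residue modulo `q`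
is learnt, and the value itself if its absolute value is at most `K`.  If every query is
answered correctly with probability at least `2 / 3` and `P, q, K, d ≤ n ^ 50`, then
`n ^ 2 ≤ 144 (T n (d ⌈log₂ n⌉) + S (d ⌈log₂ n⌉) ^ 2)`.
2. There are such data structures, deterministic, with `d = 1` and `P = 0`, with `S = n ^ 2` and
`T = 1`, and
3. with `S = n` and `T = n`. -/
theorem result :
    (∀ n P S T d q K : ℕ, 2 ≤ n → 0 < q → q ≤ n ^ 50 → K ≤ n ^ 50 → P ≤ n ^ 50 → d ≤ n ^ 50 →
      ∀ (Ω : Type) (p : PMF Ω) (D : Ω → RingIndex n d S),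
      (∀ (x : Fin 2 × Fin n → ℤ) (z : ℤ), (∀ v, |x v| ≤ (n : ℤ) ^ 300) → |z| ≤ (n : ℤ) ^ 300 →
        (2 / 3 : ENNReal) ≤ p.toOuterMeasure
          {ω | (D ω).reply q K P T x z = true ↔ IsSum x z}) →
      n ^ 2 ≤ 144 * (T * n * (d * Nat.clog 2 n) + S * (d * Nat.clog 2 n) ^ 2)) ∧
    (∀ n q K : ℕ, ∃ D : RingIndex n 1 (n ^ 2), ∀ (x : Fin 2 × Fin n → ℤ) (z : ℤ),
      (D.reply q K 0 1 x z = true ↔ IsSum x z)) ∧
    (∀ n q K : ℕ, ∃ D : RingIndex n 1 n, ∀ (x : Fin 2 × Fin n → ℤ) (z : ℤ),
      (D.reply q K 0 n x z = true ↔ IsSum x z)) := by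
  refine ⟨?_, fun n q K => ⟨sumsIndex n, sumsIndex_reply n q K⟩,
    fun n q K => ⟨scanIndex n, scanIndex_reply n q K⟩⟩
  intro n P S T d q K hn hq hqn hK hP hd Ω p D hD
  rcases Nat.eq_zero_or_pos d with rfl | hdpos
  · exfalso
    have h2 := (key n P S T 0 q K (S + T + 1) hn hq hqn
      (Nat.lt_two_pow_self.trans (Nat.pow_lt_pow_right (by norm_num) (Nat.lt_succ_self _)))
      (by simp) Ω p D hD).1
    simp only [Nat.zero_mul, ne_eq, OfNat.ofNat_ne_zero, not_false_eq_true, zero_pow,
      Nat.mul_zero, Nat.add_zero] at h2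
    have : 0 < n ^ 2 := by positivity
    omega
  have hclog : 1 ≤ Nat.clog 2 n := Nat.clog_pos (by norm_num) (by omega)
  set L := Nat.clog 2 n with hL
  have hdL : 1 ≤ d * L := Nat.one_le_iff_ne_zero.2 (Nat.mul_ne_zero (by omega) (by omega))
  by_cases hS : n ^ 2 ≤ S
  · calc n ^ 2 ≤ S * 1 ^ 2 := by rw [one_pow, mul_one]; exact hS
      _ ≤ S * (d * L) ^ 2 := by gcongr
      _ ≤ 144 * (T * n * (d * L) + S * (d * L) ^ 2) := by omega
  push Not at hS
  by_cases hT : n ≤ T
  · calc n ^ 2 = n * n * 1 := by ring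
      _ ≤ T * n * (d * L) := by gcongr
      _ ≤ 144 * (T * n * (d * L) + S * (d * L) ^ 2) := by omega
  push Not at hT
  have hnL : n ≤ 2 ^ L := Nat.le_pow_clog (by norm_num) n
  have hn2 : n ^ 2 ≤ 2 ^ (2 * L) := by
    calc n ^ 2 ≤ (2 ^ L) ^ 2 := Nat.pow_le_pow_left hnL 2
      _ = 2 ^ (2 * L) := by rw [← pow_mul, mul_comm]
  have hnn : n ≤ n ^ 2 := by nlinarith
  have hk : S + T + 1 < 2 ^ (2 * L + 1 + 1) := by
    have : 2 ^ (2 * L + 1 + 1) = 4 * 2 ^ (2 * L) := by ring
    omega
  have hsize : 24 * (((P + 1) ^ 2 + (S + 1) ^ 2 + (S + T + 1) ^ 2) * (2 * K + 1) * d) ≤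
      n ^ 250 := by
    have o50 : 1 ≤ n ^ 50 := Nat.one_le_pow _ _ (by omega)
    have e1 : P + 1 ≤ 2 * n ^ 50 := by omega
    have e2 : S + 1 ≤ n ^ 2 := hS
    have e3 : S + T + 1 ≤ 2 * n ^ 2 := by omega
    have e4 : 2 * K + 1 ≤ 3 * n ^ 50 := by omega
    have e5 : n ^ 4 ≤ n ^ 100 := Nat.pow_le_pow_right (by omega) (by norm_num)
    calc 24 * (((P + 1) ^ 2 + (S + 1) ^ 2 + (S + T + 1) ^ 2) * (2 * K + 1) * d)
        ≤ 24 * (((2 * n ^ 50) ^ 2 + (n ^ 2) ^ 2 + (2 * n ^ 2) ^ 2) * (3 * n ^ 50) * n ^ 50) := by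
          gcongr
      _ = 24 * ((4 * n ^ 100 + 5 * n ^ 4) * (3 * n ^ 50) * n ^ 50) := by ring
      _ ≤ 24 * ((4 * n ^ 100 + 5 * n ^ 100) * (3 * n ^ 50) * n ^ 50) := by gcongr
      _ = 648 * n ^ 200 := by ring
      _ ≤ n ^ 10 * n ^ 200 := by
          refine Nat.mul_le_mul_right _ ?_
          calc 648 ≤ 2 ^ 10 := by norm_num
            _ ≤ n ^ 10 := Nat.pow_le_pow_left hn 10
      _ = n ^ 210 := by rw [← pow_add]
      _ ≤ n ^ 250 := Nat.pow_le_pow_right (by omega) (by norm_num)
  obtain ⟨h1, hTpos⟩ := key n P S T d q K (2 * L + 1) hn hq hqn hk hsize Ω p D hD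
  by_cases hdn : d * L ≤ n
  · have hdk : d * (2 * L + 1) ≤ 3 * (d * L) := by nlinarith
    calc n ^ 2 ≤ 6 * (2 * (T * (d * (2 * L + 1) * n)) + (S + T + 1) * (d * (2 * L + 1)) ^ 2) := h1
      _ ≤ 6 * (2 * (T * (3 * (d * L) * n)) + (S + 2 * T) * (3 * (d * L)) ^ 2) := by
          gcongr 6 * (2 * (T * (?_ * n)) + ?_ * ?_ ^ 2)
          omega
      _ = 36 * (T * n * (d * L)) + 54 * (S * (d * L) ^ 2) + 108 * (T * (d * L) * (d * L)) := by
          ring
      _ ≤ 36 * (T * n * (d * L)) + 54 * (S * (d * L) ^ 2) + 108 * (T * n * (d * L)) := by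
          gcongr
      _ ≤ 144 * (T * n * (d * L) + S * (d * L) ^ 2) := by omega
  · push Not at hdn
    calc n ^ 2 = 1 * n * n := by ring
      _ ≤ T * n * (d * L) := Nat.mul_le_mul (Nat.mul_le_mul hTpos le_rfl) hdn.le
      _ ≤ 144 * (T * n * (d * L) + S * (d * L) ^ 2) := by omega

end Pool.Agent.Results.MP_e016b3_lc.GenericRing
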